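import Pool.Agent.helper99.ZQ.Spec
import Pool.Agent.helper50.ZR.DI2

set_option autoImplicit false
set_option linter.unusedVariables false

/-! # ZQ (MP_3c0a64_an), row DI4 (after helper50's DI2) -/

namespace Pool.Agent.ZQ

open Finset
open Pool.Agent.helper32.Cant
open Pool.Agent.GA (nrm chi ch St sg flp Psi rc ph pot rpot far nc gf ncs gfs good mj om pick pat et kap mult)
open Pool.Agent.ZR
open Pool.Agent.ZP
open scoped ENNReal

noncomputable section

/-- disjoint intervals -/
theorem DI4_vol {n : ℕ} (G : Finset (ZMod (3 ^ (2 * n)))) (T : ZMod (3 ^ (2 * n)) → ℤ) (V : Set ℝ) (o lam : ℝ) (hlam : 0 < lam)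
    (hT1 : ∀ t ∈ G, ((T t : ℤ) : ZMod (3 ^ (2 * n))) = t)
    (hT2 : ∀ t ∈ G, Set.Ico (o + lam * (T t : ℝ) / 3 ^ (2 * n)) (o + lam * ((T t : ℝ) + 1) / 3 ^ (2 * n)) ⊆ V) :
    ENNReal.ofReal (lam * G.card / 3 ^ (2 * n)) ≤ MeasureTheory.volume V := by
  set I : ZMod (3 ^ (2 * n)) → Set ℝ := fun t =>
    Set.Ico (o + lam * (T t : ℝ) / 3 ^ (2 * n)) (o + lam * ((T t : ℝ) + 1) / 3 ^ (2 * n)) with hI
  have h3 : (0 : ℝ) < 3 ^ (2 * n) := by positivity
  have hdisj : (G : Set (ZMod (3 ^ (2 * n)))).PairwiseDisjoint I := by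
    intro t ht t' ht' hne
    have hTne : T t ≠ T t' := by
      intro h
      apply hne
      rw [← hT1 t ht, ← hT1 t' ht', h]
    have gen : ∀ a b : ℤ, a < b → Disjoint
        (Set.Ico (o + lam * (a : ℝ) / 3 ^ (2 * n)) (o + lam * ((a : ℝ) + 1) / 3 ^ (2 * n)))
        (Set.Ico (o + lam * (b : ℝ) / 3 ^ (2 * n)) (o + lam * ((b : ℝ) + 1) / 3 ^ (2 * n))) := by
      intro a b hab
      rw [Set.disjoint_left]
      intro p hp hp'
      have h1 : (a : ℝ) + 1 ≤ b := by exact_mod_cast hab
      have h2 : o + lam * ((a : ℝ) + 1) / 3 ^ (2 * n) ≤ o + lam * (b : ℝ) / 3 ^ (2 * n) := by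
        have : lam * ((a : ℝ) + 1) ≤ lam * b := mul_le_mul_of_nonneg_left h1 hlam.le
        have := div_le_div_of_nonneg_right this h3.le
        linarith
      linarith [hp.2, hp'.1]
    rcases lt_or_gt_of_ne hTne with h | h
    · exact gen _ _ h
    · exact (gen _ _ h).symm
  have hmeas : ∀ t ∈ G, MeasurableSet (I t) := fun t _ => measurableSet_Ico
  have hvol : ∀ t ∈ G, MeasureTheory.volume (I t) = ENNReal.ofReal (lam / 3 ^ (2 * n)) := by
    intro t _
    rw [hI]
    simp only
    rw [Real.volume_Ico]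
    apply congrArg
    field_simp
    ring
  have hsum := MeasureTheory.measure_biUnion_finset (μ := MeasureTheory.volume) hdisj hmeas
  have hsub : (⋃ t ∈ G, I t) ⊆ V := by
    intro p hp
    rw [Set.mem_iUnion₂] at hp
    obtain ⟨t, ht, hpt⟩ := hp
    exact hT2 t ht hpt
  calc ENNReal.ofReal (lam * G.card / 3 ^ (2 * n))
      = ∑ t ∈ G, MeasureTheory.volume (I t) := by
        rw [Finset.sum_congr rfl hvol, Finset.sum_const, nsmul_eq_mul,
          ← ENNReal.ofReal_natCast, ← ENNReal.ofReal_mul (by positivity)]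
        apply congrArg
        ring
    _ = MeasureTheory.volume (⋃ t ∈ G, I t) := hsum.symm
    _ ≤ MeasureTheory.volume V := MeasureTheory.measure_mono hsub

theorem DI4_closed (U : Set (ℝ × ℝ)) (δ x r : ℝ) : IsClosed (Lb U δ x r) := by
  have h : Lb U δ x r = ⋂ q : (Uᶜ : Set (ℝ × ℝ)), ({c | δ ≤ |(q : ℝ × ℝ).1 - c|} ∪ {c | δ ≤ |(q : ℝ × ℝ).2 - (x + r * (c - 1 / 2))|}) := by
    ext c
    rw [Set.mem_iInter]
    constructor
    · intro hc q
      by_contra hcon
      rw [Set.mem_union, not_or] at hcon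
      exact q.2 (hc q (not_le.mp hcon.1) (not_le.mp hcon.2))
    · intro hc q h1 h2
      by_contra hq
      rcases hc ⟨q, hq⟩ with h3 | h3
      · exact absurd h1 (not_lt.mpr h3)
      · exact absurd h2 (not_lt.mpr h3)
  rw [h]
  apply isClosed_iInter
  intro q
  apply IsClosed.union
  · exact isClosed_le continuous_const (by fun_prop)
  · exact isClosed_le continuous_const (by fun_prop)

theorem DI4_card (hCOI : COI_stmt) (n : ℕ) (U : Set (ℝ × ℝ)) (δ x r η : ℝ) (W : Finset (Word n))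
    (hW : ∀ b : ℕ → Bool, ept b + 1 / 2 ∈ Lb U δ x r → pre b n ∈ W) (hη : ENNReal.ofReal η ≤ cmu (Lb U δ x r)) :
    η * 2 ^ n ≤ W.card := by
  obtain ⟨-, -, h3, -, -, h6, -⟩ := hCOI
  rw [h6 _ (DI4_closed U δ x r).measurableSet] at hη
  have hsub : {b : ℕ → Bool | ept b + 1 / 2 ∈ Lb U δ x r} ⊆ ⋃ w ∈ W, {b : ℕ → Bool | pre b n = w} := by
    intro b hb
    rw [Set.mem_iUnion₂]
    exact ⟨pre b n, hW b hb, rfl⟩
  have h7 := le_trans hη (le_trans (MeasureTheory.measure_mono hsub) (MeasureTheory.measure_biUnion_finset_le _ _))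
  rw [Finset.sum_congr rfl (fun w _ => (h3 n w).2), Finset.sum_const, nsmul_eq_mul, ← ENNReal.ofReal_natCast,
    ← ENNReal.ofReal_mul (by positivity), ENNReal.ofReal_le_ofReal_iff (by positivity)] at h7
  have h8 : (0 : ℝ) < 2 ^ n := by positivity
  calc η * 2 ^ n ≤ ((W.card : ℝ) * (1 / 2 ^ n)) * 2 ^ n := mul_le_mul_of_nonneg_right h7 h8.le
    _ = W.card := by field_simp

theorem DI4_int (hCOI : COI_stmt) (n : ℕ) (U : Set (ℝ × ℝ)) (hU : IsOpen U) (g : Word n → ℝ) (hg : ∀ w, 0 ≤ g w)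
    (h : ∀ b : ℕ → Bool, ENNReal.ofReal (g (pre b n)) ≤ MeasureTheory.volume (Prod.mk (ept b + 1 / 2) ⁻¹' U)) :
    ENNReal.ofReal ((∑ w, g w) / 2 ^ n) ≤ (cmu.prod MeasureTheory.volume) U := by
  classical
  obtain ⟨-, -, h3, h4, h5, -, -⟩ := hCOI
  rw [MeasureTheory.Measure.prod_apply hU.measurableSet]
  have hm1 : Measurable fun c : ℝ => MeasureTheory.volume (Prod.mk c ⁻¹' U) :=
    measurable_measure_prodMk_left hU.measurableSet
  have hfun : (fun b : ℕ → Bool => Real.ofDigits fun i => cond (b i) (2 : Fin 3) 0) = fun b => ept b + 1 / 2 := by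
    funext b
    exact h5 b
  have hm2 : Measurable fun b : ℕ → Bool => ept b + 1 / 2 := h4.add_const _
  have hc : cmu = coin.map fun b : ℕ → Bool => ept b + 1 / 2 := by
    unfold cmu
    rw [hfun]
  rw [hc, MeasureTheory.lintegral_map hm1 hm2]
  have hle : ∫⁻ b, (∑ w : Word n, Set.indicator {b : ℕ → Bool | pre b n = w} (fun _ => ENNReal.ofReal (g w)) b) ∂coin ≤
      ∫⁻ b, MeasureTheory.volume (Prod.mk (ept b + 1 / 2) ⁻¹' U) ∂coin := by
    apply MeasureTheory.lintegral_mono
    intro b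
    refine le_trans (le_of_eq ?_) (h b)
    beta_reduce
    rw [Finset.sum_eq_single (pre b n)]
    · rw [Set.indicator_of_mem]
      rfl
    · intro w _ hw
      rw [Set.indicator_of_notMem]
      intro hb
      exact hw hb.symm
    · intro hb
      exact absurd (mem_univ _) hb
  refine le_trans (le_of_eq ?_) hle
  rw [MeasureTheory.lintegral_finsetSum]
  · rw [Finset.sum_div, ENNReal.ofReal_sum_of_nonneg]
    · apply Finset.sum_congr rfl
      intro w _
      rw [MeasureTheory.lintegral_indicator_const (h3 n w).1, (h3 n w).2, ← ENNReal.ofReal_mul (hg w)]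
      apply congrArg
      ring
    · intro w _
      exact div_nonneg (hg w) (by positivity)
  · intro w _
    exact measurable_const.indicator (h3 n w).1

theorem DI4 (hCOI : COI_stmt) : DI4_stmt := by
  intro n k₁ X _ c U o lam δ η hU hlam hk hδ hδ2 H
  classical
  have : NeZero (3 ^ (2 * n)) := ⟨pow_ne_zero _ (by norm_num)⟩
  choose u s hu hs hη using H
  obtain ⟨W, hWd⟩ : ∃ W : X → Finset (Word n), W = fun z => univ.filter (fun w =>
    ∃ b : ℕ → Bool, pre b n = w ∧ ept b + 1 / 2 ∈ Lb U δ (o + lam * u z) (lam * (1 + s z))) := ⟨_, rfl⟩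
  obtain ⟨G, hGd⟩ : ∃ G : Word n → Finset (ZMod (3 ^ (2 * n))), G = fun w => univ.filter (fun t =>
    ∃ z : X, w ∈ W z ∧ (um c (0, w) z - t).val < 3 ^ (2 * n - k₁)) := ⟨_, rfl⟩
  have h3n : (0 : ℝ) < 3 ^ n := by positivity
  refine ⟨G, W, ?_, ?_, ?_⟩
  · intro z
    apply DI4_card hCOI n U δ (o + lam * u z) (lam * (1 + s z)) η (W z) _ (hη z)
    intro b hb
    rw [hWd]
    simp only
    rw [mem_filter]
    exact ⟨mem_univ _, b, rfl, hb⟩
  · intro z w hw t ht
    rw [hGd]
    simp only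
    rw [mem_filter]
    exact ⟨mem_univ _, z, hw, ht⟩
  · have key : ∀ b : ℕ → Bool, ENNReal.ofReal (lam * (G (pre b n)).card / 3 ^ (2 * n)) ≤
        MeasureTheory.volume (Prod.mk (ept b + 1 / 2) ⁻¹' U) := by
      intro b
      obtain ⟨w, hw⟩ : ∃ w, w = pre b n := ⟨_, rfl⟩
      rw [← hw]
      have key2 : ∀ t ∈ G w, ∃ T : ℤ, ((T : ℤ) : ZMod (3 ^ (2 * n))) = t ∧
          Set.Ico (o + lam * (T : ℝ) / 3 ^ (2 * n)) (o + lam * ((T : ℝ) + 1) / 3 ^ (2 * n)) ⊆
            Prod.mk (ept b + 1 / 2) ⁻¹' U := by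
        intro t ht
        rw [hGd] at ht
        obtain ⟨-, z, hwz, hd⟩ := mem_filter.mp ht
        rw [hWd] at hwz
        obtain ⟨-, b', hb', hLb⟩ := mem_filter.mp hwz
        obtain ⟨d, hdd⟩ : ∃ d : ℕ, d = (um c (0, w) z - t).val := ⟨_, rfl⟩
        rw [← hdd] at hd
        refine ⟨3 ^ n * (c.ctr z : ℤ) + (c.R z : ℤ) * E w - (d : ℤ), ?_, ?_⟩
        · have h1 : ((d : ℕ) : ZMod (3 ^ (2 * n))) = um c (0, w) z - t := by
            rw [hdd]
            exact ZMod.natCast_zmod_val _
          have h2 : um c (0, w) z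
              = ((3 ^ n * (c.ctr z : ℤ) + (c.R z : ℤ) * E w : ℤ) : ZMod (3 ^ (2 * n))) := by
            show ((3 ^ n * (c.ctr z : ℤ) + (c.R z : ℤ) * E w : ℤ) : ZMod (3 ^ (2 * n))) + 0 = _
            rw [add_zero]
          rw [Int.cast_sub, Int.cast_natCast, h1, ← h2]
          ring
        · intro p hp
          have hx : |(o + lam * u z) - (o + lam * ((c.ctr z : ℝ) / 3 ^ n))| ≤ lam / 3 ^ n := by
            have e1 : (o + lam * u z) - (o + lam * ((c.ctr z : ℝ) / 3 ^ n)) = lam * (u z - (c.ctr z : ℝ) / 3 ^ n) := by ring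
            rw [e1, abs_mul, abs_of_pos hlam]
            refine le_trans (mul_le_mul_of_nonneg_left (hu z) hlam.le) (le_of_eq ?_)
            ring
          have hE := ept_approx b' n
          rw [hb'] at hE
          have hest := DI2_est (n := n) (k₁ := k₁) (o := o) (lam := lam) (δ := δ) (x := o + lam * u z) (s := s z)
            (e := ept b') (p := p) (ctr := c.ctr z) (R := c.R z) (d := d) (Ew := E w) hlam hk hδ (c.hi z)
            hx (hs z) (abs_ept_le b') hE hd hp.1 hp.2
          have hE2 := ept_approx b n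
          rw [← hw] at hE2
          have hbb : |ept b - ept b'| < δ := by
            have h5 : |3 ^ n * (ept b - ept b')| ≤ 1 := by
              have e1 : 3 ^ n * (ept b - ept b') = (3 ^ n * ept b - (E w : ℝ)) - (3 ^ n * ept b' - (E w : ℝ)) := by ring
              rw [e1]
              have := abs_sub (3 ^ n * ept b - (E w : ℝ)) (3 ^ n * ept b' - (E w : ℝ))
              linarith
            rw [abs_mul, abs_of_pos h3n] at h5
            have h6 : |ept b - ept b'| ≤ 1 / 3 ^ n := by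
              rw [le_div_iff₀ h3n]
              linarith
            linarith
          show (ept b + 1 / 2, p) ∈ U
          apply hLb
          · have e1 : (ept b + 1 / 2, p).1 - (ept b' + 1 / 2) = ept b - ept b' := by
              simp only
              ring
            rw [e1]
            exact hbb
          · have e1 : ept b' + 1 / 2 - 1 / 2 = ept b' := by ring
            rw [e1]
            exact hest
      choose! T hT1 hT2 using key2
      exact DI4_vol (G w) T _ o lam hlam hT1 hT2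
    have hfin := DI4_int hCOI n U hU (fun w => lam * (G w).card / 3 ^ (2 * n)) (fun w => by positivity) key
    refine le_trans (le_of_eq ?_) hfin
    apply congrArg
    rw [← Finset.sum_div, ← Finset.mul_sum]
    field_simp

end

end Pool.Agent.ZQ
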