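import Pool.Agent.helper99.ZQ.Spec
import Pool.Agent.helper35.ZR.TOT

set_option autoImplicit false

/-! # ZQ (MP_3c0a64_an), row TE4 (after helper68's TEL) -/

namespace Pool.Agent.ZQ

open Finset
open Pool.Agent.helper32.Cant
open Pool.Agent.GA (nrm chi ch St sg flp Psi rc ph pot rpot far nc gf ncs gfs good mj om pick pat et kap mult)
open Pool.Agent.ZR
open Pool.Agent.ZP
open scoped ENNReal

/-- the density -/
noncomputable def TE4_a {n : ℕ} {X : Type} [Fintype X] (c : Fam n X) (k : ℕ) (w : Word n)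
    (t : ZMod (3 ^ (2 * n))) : ℝ := FI c (3 ^ (2 * n - k)) w t / 3 ^ (2 * n - k)

theorem TE4_card (n : ℕ) : (Finset.univ : Finset (Word n)).card = 2 ^ n := by
  simp [Finset.card_univ]

/-- the good cells carry a positive proportion of the mass -/
theorem TE4_low (n k₁ : ℕ) (X : Type) [Fintype X] (c : Fam n X) (η : ℝ)
    (G : Word n → Finset (ZMod (3 ^ (2 * n)))) (W : X → Finset (Word n)) (hW : ∀ z, η * 2 ^ n ≤ (W z).card)
    (hG : ∀ z, ∀ w ∈ W z, ∀ t, (um c (0, w) z - t).val < 3 ^ (2 * n - k₁) → t ∈ G w) :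
    η * (2 ^ n * Wt c) ≤ ∑ w : Word n, ∑ t ∈ G w, TE4_a c k₁ w t := by
  classical
  obtain ⟨L, hL⟩ : ∃ L : ℕ, L = 3 ^ (2 * n - k₁) := ⟨_, rfl⟩
  have hLle : L ≤ 3 ^ (2 * n) := by
    rw [hL]
    exact Nat.pow_le_pow_right (by norm_num) (Nat.sub_le _ _)
  have hL0 : (0 : ℝ) < L := by
    rw [hL]
    push_cast
    positivity
  have : NeZero (3 ^ (2 * n)) := ⟨pow_ne_zero _ (by norm_num)⟩
  have hind0 : ∀ p : Prop, 0 ≤ ind p := by
    intro p
    unfold ind
    split_ifs <;> norm_num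
  have h1 : ∀ w : Word n, ∑ z, c.a z * ((if w ∈ W z then 1 else 0) * (L : ℝ)) ≤ ∑ t ∈ G w, FI c L w t := by
    intro w
    unfold FI
    rw [sum_comm]
    refine sum_le_sum fun z _ => ?_
    rw [← mul_sum]
    apply mul_le_mul_of_nonneg_left _ (c.pos z).le
    split_ifs with hw
    · rw [one_mul, ← TOT_cnt (um c (0, w) z) hLle]
      apply le_of_eq
      symm
      apply sum_subset (subset_univ _)
      intro t _ ht
      unfold ind
      rw [if_neg]
      intro h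
      rw [hL] at h
      exact ht (hG z w hw t h)
    · rw [zero_mul]
      exact sum_nonneg fun t _ => hind0 _
  have h2 : ∀ w : Word n, ∑ z, c.a z * (if w ∈ W z then 1 else 0) ≤ ∑ t ∈ G w, TE4_a c k₁ w t := by
    intro w
    unfold TE4_a
    rw [← sum_div]
    have hL2 : ((3 : ℝ) ^ (2 * n - k₁)) = (L : ℝ) := by
      rw [hL]
      push_cast
      rfl
    rw [hL2, le_div_iff₀ hL0, sum_mul, ← hL]
    refine le_trans (le_of_eq ?_) (h1 w)
    refine sum_congr rfl fun z _ => ?_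
    ring
  refine le_trans ?_ (sum_le_sum fun w _ => h2 w)
  rw [sum_comm]
  unfold Wt
  rw [mul_sum, mul_sum]
  refine sum_le_sum fun z _ => ?_
  rw [← mul_sum, sum_boole]
  have h3 : ((univ.filter fun w => w ∈ W z).card : ℝ) = (W z).card := by
    rw [filter_mem_eq_inter, univ_inter]
  rw [h3]
  have h4 := mul_le_mul_of_nonneg_left (hW z) (c.pos z).le
  refine le_trans (le_of_eq ?_) h4
  ring

theorem TE4 (hKST : Pool.Agent.ZP.KST_stmt) (hSP3 : Pool.Agent.ZR.SP3_stmt) (hTOT : Pool.Agent.ZR.TOT_stmt) : TE4_stmt := by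
  intro σ M η hσ hM hη
  obtain ⟨k', hk'⟩ := hKST σ M hσ hM
  obtain ⟨m, hm⟩ := exists_nat_ge (2 / η + 1)
  refine ⟨max (max k' 3) m, ?_⟩
  intro n k₁ hk1 hkn X _ c hWt hWin G W hW hG
  set k₀ := max (max k' 3) m with hk₀
  have hk03 : 3 ≤ k₀ := le_trans (le_max_right _ _) (le_max_left _ _)
  have hk0m : m ≤ k₀ := le_max_right _ _
  have hk1n : k₁ ≤ n := by omega
  have h3n : (0 : ℝ) < 3 ^ n := by positivity
  have hWpos : 0 < Wt c := lt_of_lt_of_le (by positivity) hWt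
  obtain ⟨-, -, -, -, hT⟩ := hTOT n X c
  set A : ℝ := 2 ^ n * Wt c with hA
  have hA0 : 0 < A := by positivity
  -- one step
  have hstep : ∀ k, k₀ ≤ k → k < k₁ →
      ∑ w : Word n, ∑ t, |TE4_a c k w t - TE4_a c (k + 1) w t| ≤ 1 / (k : ℝ) ^ 2 * A := by
    intro k hk hkk
    have hclog : Nat.clog 3 k ≤ Nat.clog 3 k₁ := Nat.clog_mono_right 3 (by omega)
    have h1 := hk' k (le_trans (le_trans (le_max_left _ _) (le_max_left _ _)) hk) n (by omega) X c hWt hWin
    have h2 := hSP3 n X c k (by omega)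
    have hL : (0 : ℝ) < 3 ^ (2 * n - (k + 1)) := by positivity
    refine le_trans h2 ?_
    rw [div_le_iff₀ hL]
    refine le_trans h1 (le_of_eq ?_)
    rw [hA]
    ring
  -- telescoping
  have htel : ∀ k, k₀ ≤ k → k ≤ k₁ →
      ∑ w : Word n, ∑ t, |TE4_a c k₀ w t - TE4_a c k w t| ≤
        (1 / ((k₀ : ℝ) - 1) - 1 / ((k : ℝ) - 1)) * A := by
    intro k hk
    induction k, hk using Nat.le_induction with
    | base =>
      intro _
      simp
    | succ k hk ih =>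
      intro hk2
      have h1 := ih (by omega)
      have h2 := hstep k hk (by omega)
      have h3 : ∑ w : Word n, ∑ t, |TE4_a c k₀ w t - TE4_a c (k + 1) w t| ≤
          ∑ w : Word n, ∑ t, |TE4_a c k₀ w t - TE4_a c k w t| +
          ∑ w : Word n, ∑ t, |TE4_a c k w t - TE4_a c (k + 1) w t| := by
        rw [← sum_add_distrib]
        refine sum_le_sum fun w _ => ?_
        rw [← sum_add_distrib]
        exact sum_le_sum fun t _ => abs_sub_le _ _ _
      have hk3 : (3 : ℝ) ≤ k := by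
        have : 3 ≤ k := le_trans hk03 hk
        exact_mod_cast this
      have h4 : 1 / (k : ℝ) ^ 2 ≤ 1 / ((k : ℝ) - 1) - 1 / (k : ℝ) := by
        rw [div_sub_div _ _ (by linarith) (by linarith), div_le_div_iff₀ (by positivity)
          (mul_pos (by linarith) (by linarith))]
        nlinarith
      have h5 : ((k + 1 : ℕ) : ℝ) - 1 = k := by push_cast; ring
      rw [h5]
      have h6 : 1 / (k : ℝ) ^ 2 * A ≤ (1 / ((k : ℝ) - 1) - 1 / (k : ℝ)) * A :=
        mul_le_mul_of_nonneg_right h4 hA0.le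
      calc ∑ w : Word n, ∑ t, |TE4_a c k₀ w t - TE4_a c (k + 1) w t|
          ≤ (1 / ((k₀ : ℝ) - 1) - 1 / ((k : ℝ) - 1)) * A + 1 / (k : ℝ) ^ 2 * A := by linarith
        _ ≤ (1 / ((k₀ : ℝ) - 1) - 1 / ((k : ℝ) - 1)) * A +
            (1 / ((k : ℝ) - 1) - 1 / (k : ℝ)) * A := by linarith
        _ = (1 / ((k₀ : ℝ) - 1) - 1 / (k : ℝ)) * A := by ring
  have hD : ∑ w : Word n, ∑ t, |TE4_a c k₀ w t - TE4_a c k₁ w t| ≤ η / 2 * A := by
    refine le_trans (htel k₁ hk1 le_rfl) ?_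
    have h1 : (3 : ℝ) ≤ k₀ := by exact_mod_cast hk03
    have h2 : (3 : ℝ) ≤ k₁ := by
      have : 3 ≤ k₁ := by omega
      exact_mod_cast this
    have h3 : 1 / ((k₀ : ℝ) - 1) ≤ η / 2 := by
      have h5 : (m : ℝ) ≤ k₀ := by exact_mod_cast hk0m
      have h6 : 2 / η ≤ (k₀ : ℝ) - 1 := by linarith
      have h7 := one_div_le_one_div_of_le (by positivity) h6
      refine le_trans h7 (le_of_eq ?_)
      rw [one_div_div]
    have h4 : 0 < 1 / ((k₁ : ℝ) - 1) := one_div_pos.2 (by linarith)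
    apply mul_le_mul_of_nonneg_right _ hA0.le
    linarith
  have hpow : ∀ k : ℕ, (3 : ℕ) ^ (2 * n - k) ≤ 3 ^ (2 * n) := fun k =>
    Nat.pow_le_pow_right (by norm_num) (Nat.sub_le _ _)
  have hL0 : (0 : ℝ) < 3 ^ (2 * n - k₀) := by positivity
  have hcoarse : ∑ w : Word n, ∑ t ∈ G w, TE4_a c k₀ w t ≤ (∑ w : Word n, ((G w).card : ℝ)) * (Wt c / 3 ^ (2 * n - k₀)) := by
    rw [sum_mul]
    refine sum_le_sum fun w _ => ?_
    rw [← nsmul_eq_mul, ← sum_const]
    refine sum_le_sum fun t _ => ?_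
    unfold TE4_a
    exact div_le_div_of_nonneg_right ((hT _ (hpow k₀) w).2 t).2 hL0.le
  have hcomp : ∑ w : Word n, ∑ t ∈ G w, TE4_a c k₁ w t ≤ ∑ w : Word n, ∑ t ∈ G w, TE4_a c k₀ w t +
      ∑ w : Word n, ∑ t, |TE4_a c k₀ w t - TE4_a c k₁ w t| := by
    rw [← sum_add_distrib]
    refine sum_le_sum fun w _ => ?_
    have h1 : ∑ t ∈ G w, |TE4_a c k₀ w t - TE4_a c k₁ w t| ≤
        ∑ t, |TE4_a c k₀ w t - TE4_a c k₁ w t| :=
      sum_le_sum_of_subset_of_nonneg (subset_univ (G w)) fun _ _ _ => abs_nonneg _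
    have h2 : ∑ t ∈ G w, TE4_a c k₁ w t ≤ ∑ t ∈ G w, (TE4_a c k₀ w t +
        |TE4_a c k₀ w t - TE4_a c k₁ w t|) := by
      refine sum_le_sum fun t _ => ?_
      have := neg_abs_le (TE4_a c k₀ w t - TE4_a c k₁ w t)
      linarith
    rw [sum_add_distrib] at h2
    linarith
  have hlow := TE4_low n k₁ X c η G W hW hG
  rw [← hA] at hlow
  have hmain : η / 2 * A ≤ (∑ w : Word n, ((G w).card : ℝ)) * (Wt c / 3 ^ (2 * n - k₀)) := by linarith
  have h9 : (∑ w : Word n, ((G w).card : ℝ)) * (Wt c / 3 ^ (2 * n - k₀)) =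
      (∑ w : Word n, ((G w).card : ℝ)) * Wt c / 3 ^ (2 * n - k₀) := by ring
  rw [h9, le_div_iff₀ hL0, hA] at hmain
  have h10 : Wt c * (η / 2 * (2 ^ n * 3 ^ (2 * n - k₀))) ≤ Wt c * ∑ w : Word n, ((G w).card : ℝ) := by
    linarith
  exact le_of_mul_le_mul_left h10 hWpos

end Pool.Agent.ZQ
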